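import Pool.Agent.H631.TH.Asm

/-!
# Countably perfectly null and countably perfectly meager sets can coincide

It is consistent with ZFC that every countably perfectly meager subset of every Polish space is
countably perfectly null (so that the two classes coincide, in all perfect Polish spaces). The
proof has two parts.

1. A combinatorial principle `PhiFor T` implies in ZFC that the two classes coincide. It says: there are null
`F_σ` subsets `F t` of `2^ℕ`, `t : T`, such that for every choice of points `a t ∉ F t` there are countably many
closed sets `P n` of positive measure such that whenever countably many closed sets `C m` cover `{a t | t : T}`,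
some `P n` is contained in some `C m`. Given a measure `μ` on a Polish space and a set `A` which is not covered by a
`μ`-null `F_σ` set, `μ` is transferred to `2^ℕ` by an embedding defined outside of a null `F_σ` set; the points `a t` are
chosen in (the image of) `A`, and the perfect sets which refute that `A` is countably perfectly meager are the
supports of the restrictions of `μ` to the preimages of the sets `P n`.

2. `PhiFor T` is forced by a finite support iteration along `T`, a well-ordered set whose cardinality is a successor
`κ⁺` with `κ ^ ℵ₀ = κ`, of tree Hechler forcing: at each coordinate conditions consist of a finite
sequence `s` of numbers, and finitely many promises, i.e. names of functions `F` from finite sequences to numbers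
from the earlier stages; the new values satisfy `F (s|i) ≤ s i`. The null sets `F t` are defined from the generic
functions at `t` and at some later `t'`: the first codes clopen sets of measure at most `1 / 2^n`, the second one dominates, and gives
a partition of `ℕ` into intervals. The heart of the proof is a dichotomy: for each real `a` of the extension and each
`γ` in `T`, either every condition can be strengthened below `γ` so that `a` is forced into sets of arbitrarily small
measure, in which case `a` is in the null `F_σ` set `F γ`; or there are (countably many) closed sets of positive measure `P n` in
the extension up to `γ` such that every closed set of that extension which contains `a` contains some `P n`.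
It is proved by induction on the support of the name of `a`; in the successor step a condition is constructed whose last
promise is a name for a function, which is given by a tree of conditions obtained from maximal antichains; it dominates
more and more promises along the branches. A pigeonhole argument for the countable names of the sequences `(P n)` finishes the proof.
-/

set_option autoImplicit false

namespace Pool.Agent.Results.MP_40b13d_lc.Coincide

open Pool.Agent.H631.TH

/-- (A) For every set `R` there are a set `T`, with an injection from `R` to `T`, and a nonempty ccc notion of forcing
`P`, all of whose conditions force the sentence `PhiHolds`, i.e. `PhiFor T`. (B) The sentence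
`PhiHolds` of the forcing language means `PhiFor` (over the trivial notion of forcing). (C) (In ZFC) if `PhiFor T` holds for
some `T`, then in every Polish space `X` a set is countably perfectly meager if and only if it is countably perfectly null. -/
theorem result :
    (∀ R : Type, ∃ (T P : Type) (_ : Preorder P), Nonempty (R ↪ T) ∧ Nonempty P ∧
      (∀ A : Set P, (∀ p ∈ A, ∀ q ∈ A, p ≠ q → ¬ ∃ r, r ≤ p ∧ r ≤ q) → A.Countable) ∧
      ∀ p : P, p ∈ PhiHolds P T) ∧
    (∀ (T : Type) (p : Unit), p ∈ PhiHolds Unit T ↔ PhiFor T) ∧
    (∀ T : Type, PhiFor T → ∀ (X : Type) [TopologicalSpace X] [PolishSpace X]
      [MeasurableSpace X] [BorelSpace X] (A : Set X), PMSigma A ↔ PNSigma A) := by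
  refine ⟨fun R => ?_, Pool.Agent.H631.THD.UNIT.th_UNIT, fun T hT X _ _ _ _ A =>
    ⟨transThm T hT X A, Pool.Agent.H631.THD.PNPM.th_PNPM X A⟩⟩
  obtain ⟨M, T, i1, i2, i3, Γ, hR, hF, hT, hPH⟩ := kmThm R
  refine ⟨T, PP Γ, inferInstance, hR, ⟨(Cond.one : Cond M T)⟩, fun A hA => ?_,
    finThm M T Γ ccc hF hT hPH⟩
  by_contra hcon
  obtain ⟨p, hp, q, hq, hne, r, h1, h2⟩ := ccc (Γ := Γ) A hcon
  exact hA p hp q hq hne ⟨r, h1, h2⟩

end Pool.Agent.Results.MP_40b13d_lc.Coincide
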